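import Pool.Agent.SRD.Defs

/-!
SRD module Npr (size 4): the preimage of a null set under a submersion is null.
PROOF. It is enough that every point `z` of the set has a neighbourhood in which the set is null (`MeasureTheory.measure_null_of_locally_null`,
`V` is second countable: finite-dimensional). Let `L = fderiv ℝ F z` (surjective); as in the proof of `slice` in Pool/Agent/NDC/Slc.lean
choose `π : V →L[ℝ] L.ker` with `π v = v` on `L.ker` and let `Φ y = (F y, π y)`, an open partial homeomorphism `P` near `z`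
(`ContDiffAt.toOpenPartialHomeomorph`) with `P.symm` differentiable near `Φ z` (`ContDiffAt.to_localInverse`, as in `slice`). Let `e : V ≃L[ℝ] (Fin N → ℝ) × L.ker`
(the derivative of `Φ`), and let `ρ` be the measure `volume.prod (addHaar of L.ker)` on the product, a Haar measure. The set
`Z ×ˢ univ` is `ρ`-null (`Measure.prod_prod` or `Measure.prod_null`-type lemma, `Z` may be replaced by the measurable superset `toMeasurable volume Z`). `Z' = e ⁻¹' (Z ×ˢ univ)` is
`μ`-null: the measure `μ.map e` is a Haar measure on the product (`ContinuousLinearEquiv.isAddHaarMeasure_map` or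
`LinearEquiv.isAddHaarMeasure_map`), so a multiple of `ρ` (`MeasureTheory.Measure.isAddLeftInvariant_eq_smul`, `absolutelyContinuous`). The map `P.symm ∘ e : V → V` is
differentiable near `e.symm (Φ z)`, so it maps the null set `Z' ∩ (small ball)` to a null set
(`MeasureTheory.addHaar_image_eq_zero_of_differentiableOn_of_addHaar_eq_zero`), and this image contains all `y` near `z` with `F y ∈ Z`: `y = P.symm (Φ y)`,
`Φ y ∈ Z ×ˢ univ`.
-/

open scoped ContDiff Topology
open MeasureTheory

namespace Pool.Agent.SRD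

theorem null_preimage {V : Type*} [NormedAddCommGroup V] [NormedSpace ℝ V]
    [FiniteDimensional ℝ V] [MeasurableSpace V] [BorelSpace V] (μ : Measure V)
    [μ.IsAddHaarMeasure] {N : ℕ} {U : Set V} (hU : IsOpen U) {F : V → R N}
    (hF : ContDiffOn ℝ ∞ F U) {Z : Set (R N)} (hZ : volume Z = 0) :
    μ {z | z ∈ U ∧ Function.Surjective (fderiv ℝ F z) ∧ F z ∈ Z} = 0 := by
  refine measure_null_of_locally_null _ ?_
  rintro z ⟨hz, hs, -⟩
  have hFz : ContDiffAt ℝ ∞ F z := hF.contDiffAt (hU.mem_nhds hz)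
  obtain ⟨π, hπ⟩ := (fderiv ℝ F z).ker_closedComplemented_of_finiteDimensional_range
  have hinj : Function.Injective ((fderiv ℝ F z).prod π) := by
    intro x y hxy
    have h0 : (fderiv ℝ F z).prod π (x - y) = 0 := by rw [map_sub, hxy, sub_self]
    have h1 : fderiv ℝ F z (x - y) = 0 := congrArg Prod.fst h0
    have h2 : π (x - y) = 0 := congrArg Prod.snd h0
    have h3 := hπ ⟨x - y, h1⟩
    have h4 : (x - y : V) = 0 := by
      have := congrArg Subtype.val (h3.symm.trans h2)
      simpa using this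
    exact sub_eq_zero.1 h4
  have hsurj : Function.Surjective ((fderiv ℝ F z).prod π) := by
    rintro ⟨a, b⟩
    obtain ⟨x, hx⟩ := hs a
    refine ⟨x + ((b - π x : (fderiv ℝ F z).ker) : V), ?_⟩
    have hb : fderiv ℝ F z ((b - π x : (fderiv ℝ F z).ker) : V) = 0 := (b - π x).2
    have hp : π ((b - π x : (fderiv ℝ F z).ker) : V) = b - π x := hπ _
    ext1
    · change fderiv ℝ F z (x + ((b - π x : (fderiv ℝ F z).ker) : V)) = a
      rw [map_add, hb, add_zero, hx]
    · change π (x + ((b - π x : (fderiv ℝ F z).ker) : V)) = b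
      rw [map_add, hp]
      abel
  let e : V ≃L[ℝ] R N × (fderiv ℝ F z).ker :=
    (LinearEquiv.ofBijective ((fderiv ℝ F z).prod π).toLinearMap
      ⟨hinj, hsurj⟩).toContinuousLinearEquiv
  have he : (e : V →L[ℝ] R N × (fderiv ℝ F z).ker) = (fderiv ℝ F z).prod π := by
    ext x <;> rfl
  let Φ : V → R N × (fderiv ℝ F z).ker := fun y => (F y, π y)
  have hΦ : ContDiffAt ℝ ∞ Φ z := hFz.prodMk π.contDiff.contDiffAt
  have hd : HasFDerivAt Φ (e : V →L[ℝ] R N × (fderiv ℝ F z).ker) z := by
    rw [he]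
    exact (hFz.differentiableAt (by simp)).hasFDerivAt.prodMk π.hasFDerivAt
  let P := hΦ.toOpenPartialHomeomorph Φ hd (by simp)
  have hzs : z ∈ P.source := hΦ.mem_toOpenPartialHomeomorph_source hd (by simp)
  have hψ : ContDiffAt ℝ ∞ P.symm (Φ z) := by
    have := hΦ.to_localInverse hd (by simp)
    exact this
  have e2 : ∀ᶠ w in 𝓝 (Φ z), DifferentiableAt ℝ P.symm w := by
    have h1 : ContDiffAt ℝ 1 P.symm (Φ z) := hψ.of_le (by simp)
    filter_upwards [h1.eventually (by simp)] with w hw
    exact hw.differentiableAt (by simp)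
  -- the null set in the product
  let ρ : Measure (R N × (fderiv ℝ F z).ker) :=
    (volume : Measure (R N)).prod (Measure.addHaar : Measure (fderiv ℝ F z).ker)
  have hρ : ρ (Z ×ˢ Set.univ) = 0 := by
    change (volume : Measure (R N)).prod (Measure.addHaar : Measure (fderiv ℝ F z).ker) _ = 0
    rw [Measure.prod_prod, hZ, zero_mul]
  have hν : (μ.map e).IsAddHaarMeasure := e.isAddHaarMeasure_map μ
  have : FiniteDimensional ℝ (fderiv ℝ F z).ker := inferInstance
  have : ProperSpace (fderiv ℝ F z).ker := FiniteDimensional.proper ℝ _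
  have hc : μ.map e ≪ ρ := by
    rw [Measure.isAddLeftInvariant_eq_smul (μ.map e) ρ]
    exact Measure.AbsolutelyContinuous.smul_left Measure.AbsolutelyContinuous.rfl _
  have hZ' : μ (e ⁻¹' (Z ×ˢ Set.univ)) = 0 := by
    have h1 : μ.map e (Z ×ˢ Set.univ) = μ (e ⁻¹' (Z ×ˢ Set.univ)) :=
      e.toHomeomorph.toMeasurableEquiv.map_apply _
    rw [← h1]
    exact hc hρ
  have hdiff : DifferentiableOn ℝ (fun v => P.symm (e v))
      (e ⁻¹' (Z ×ˢ Set.univ) ∩ {v | DifferentiableAt ℝ P.symm (e v)}) := by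
    intro v hv
    exact (DifferentiableAt.comp v hv.2 e.differentiableAt).differentiableWithinAt
  have himg := addHaar_image_eq_zero_of_differentiableOn_of_addHaar_eq_zero μ hdiff
    (measure_mono_null Set.inter_subset_left hZ')
  have e4 : ∀ᶠ y in 𝓝 z, DifferentiableAt ℝ P.symm (Φ y) := by
    have : Filter.Tendsto Φ (𝓝 z) (𝓝 (Φ z)) := hΦ.continuousAt
    exact this.eventually e2
  refine ⟨_, Filter.inter_mem (mem_nhdsWithin_of_mem_nhds
    (Filter.inter_mem e4 (P.open_source.mem_nhds hzs))) self_mem_nhdsWithin,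
    measure_mono_null ?_ himg⟩
  rintro y ⟨⟨hy, hys⟩, -, -, hyZ⟩
  have h1 : e (e.symm (Φ y)) = Φ y := e.apply_symm_apply _
  refine ⟨e.symm (Φ y), ⟨?_, ?_⟩, ?_⟩
  · change e (e.symm (Φ y)) ∈ Z ×ˢ (Set.univ : Set (fderiv ℝ F z).ker)
    rw [h1]
    exact ⟨hyZ, Set.mem_univ _⟩
  · change DifferentiableAt ℝ P.symm (e (e.symm (Φ y)))
    rw [h1]
    exact hy
  · change P.symm (e (e.symm (Φ y))) = y
    rw [h1]
    exact P.left_inv hys

end Pool.Agent.SRD
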