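import Pool.Agent.SRD.Defs

/-!
SRD module Fub (size 2): a measurable set in `ℝ^(k+1)` with null slices is null.
PROOF. `MeasureTheory.volume_preserving_piFinSuccAbove (fun _ : Fin (k + 1) => ℝ) r` : the measurable equivalence
`MeasurableEquiv.piFinSuccAbove _ r : R (k + 1) ≃ᵐ ℝ × R k`, `z ↦ (z r, fun j => z (r.succAbove j))`, preserves the volume; so it is enough that
the image (preimage under the inverse) `S'` is null in `ℝ × R k`: `MeasureTheory.Measure.measure_prod_null` (`S'` measurable): for all `t` the slice
`{y | (t, y) ∈ S'}` is contained in `T t`, which is null.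
-/

open scoped ContDiff Topology
open MeasureTheory

namespace Pool.Agent.SRD

theorem null_of_slices {k : ℕ} (r : Fin (k + 1)) {S : Set (R (k + 1))} (hS : MeasurableSet S)
    {T : ℝ → Set (R k)} (hT : ∀ t, volume (T t) = 0)
    (h : ∀ z ∈ S, (fun j => z (r.succAbove j)) ∈ T (z r)) : volume S = 0 := by
  have hmp := MeasureTheory.volume_preserving_piFinSuccAbove (fun _ : Fin (k + 1) => ℝ) r
  set e := MeasurableEquiv.piFinSuccAbove (fun _ : Fin (k + 1) => ℝ) r with he
  have hS' : MeasurableSet (e.symm ⁻¹' S) := e.symm.measurable hS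
  have hnull : (volume : Measure (ℝ × (Fin k → ℝ))) (e.symm ⁻¹' S) = 0 := by
    rw [Measure.volume_eq_prod, Measure.measure_prod_null hS']
    refine Filter.Eventually.of_forall fun t => ?_
    refine measure_mono_null (t := T t) ?_ (hT t)
    intro y hy
    have hy' : e.symm (t, y) ∈ S := hy
    have h1 := h _ hy'
    have h2 : e (e.symm (t, y)) = (t, y) := e.apply_symm_apply (t, y)
    have h3 : (e.symm (t, y)) r = t := congrArg Prod.fst h2
    have h4 : (fun j => (e.symm (t, y)) (r.succAbove j)) = y := congrArg Prod.snd h2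
    rw [h3, h4] at h1
    exact h1
  have := hmp.measure_preimage_equiv (e.symm ⁻¹' S)
  rw [← this] at hnull
  have hset : e ⁻¹' (e.symm ⁻¹' S) = S := by
    ext z
    simp
  rw [hset] at hnull
  exact hnull

end Pool.Agent.SRD
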