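import Pool.Agent.SRD.Defs

/-!
SRD module Lnd (size 1): a set with locally null image has null image.
PROOF. `TopologicalSpace.countable_cover_nhdsWithin` (the space `V` is second countable: finite-dimensional, `R N`): choose for `x ∈ S` a neighbourhood
`Vx` with null `f '' (S ∩ Vx)`; a countable `t ⊆ S` has `S ⊆ ⋃ x ∈ t, Vx`; `f '' S ⊆ ⋃ x ∈ t, f '' (S ∩ Vx)`;
`measure_biUnion_null_iff`.
-/

open scoped ContDiff Topology
open MeasureTheory

namespace Pool.Agent.SRD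

theorem null_of_locally {V : Type*} [TopologicalSpace V] [SecondCountableTopology V] {k : ℕ}
    {f : V → R k} {S : Set V} (h : ∀ x ∈ S, ∃ O ∈ 𝓝 x, volume (f '' (S ∩ O)) = 0) :
    volume (f '' S) = 0 := by
  classical
  have hch : ∀ x : V, ∃ O : Set V, x ∈ S → O ∈ 𝓝 x ∧ volume (f '' (S ∩ O)) = 0 := by
    intro x
    by_cases hx : x ∈ S
    · obtain ⟨O, h1, h2⟩ := h x hx
      exact ⟨O, fun _ => ⟨h1, h2⟩⟩
    · exact ⟨∅, fun h' => absurd h' hx⟩
  choose O hO using hch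
  obtain ⟨t, htS, htc, hcov⟩ := TopologicalSpace.countable_cover_nhdsWithin
    (f := O) (s := S) fun x hx => mem_nhdsWithin_of_mem_nhds (hO x hx).1
  have hsub : f '' S ⊆ ⋃ x ∈ t, f '' (S ∩ O x) := by
    rintro _ ⟨x, hx, rfl⟩
    obtain ⟨y, hy, hxy⟩ := Set.mem_iUnion₂.1 (hcov hx)
    exact Set.mem_iUnion₂.2 ⟨y, hy, x, ⟨hx, hxy⟩, rfl⟩
  refine measure_mono_null hsub ?_
  rw [measure_biUnion_null_iff htc]
  exact fun x hx => (hO x (htS hx)).2

end Pool.Agent.SRD
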