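import Pool.Agent.SRD.Defs

/-!
SRD module Sgc (size 2): the image of the critical set is σ-compact, so measurable.
PROOF. `S = crit f U ∩ O` with `O ⊆ U` open is relatively closed in `O`: its complement in `O` is
`{x ∈ O | fderiv ℝ f x surjective}`, open because `fderiv ℝ f` is continuous on `U` and the surjective linear maps form an open set
(`ContinuousLinearMap.isOpen_setOf_surjective`-type lemma if it exists; otherwise: a surjective `L : R N → R k` has a right inverse `B` linear,
and `L' ∘ B` is invertible for `L'` near `L` (units are open), so `L'` is surjective). An open subset `O` of `R N` is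
the union of countably many compact sets `K j` (`IsOpen.isSigmaCompact` or
`exists_compact_covering` / `CompactExhaustion`); `S ∩ K j` is compact (closed in `K j`), its image under the continuous-on-`O` map `f` is compact,
so closed and measurable; union.
-/

open scoped ContDiff Topology
open MeasureTheory

namespace Pool.Agent.SRD

private theorem Sgc_isOpen_surj (N k : ℕ) :
    IsOpen {L : R N →L[ℝ] R k | Function.Surjective L} := by
  rw [isOpen_iff_mem_nhds]
  intro L hL
  obtain ⟨B, hB⟩ := (L : R N →ₗ[ℝ] R k).exists_rightInverse_of_surjective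
    (LinearMap.range_eq_top.2 hL)
  let B' : R k →L[ℝ] R N := LinearMap.toContinuousLinearMap B
  have hLB : L.comp B' = 1 := by
    ext x i
    exact congrArg (fun g : R k →ₗ[ℝ] R k => g x i) hB
  have hcont : Continuous (fun L' : R N →L[ℝ] R k => L'.comp B') :=
    (ContinuousLinearMap.compL ℝ (R k) (R N) (R k)).flip B' |>.continuous
  have hopen : IsOpen {A : R k →L[ℝ] R k | IsUnit A} := Units.isOpen
  have h2 : IsOpen ((fun L' : R N →L[ℝ] R k => L'.comp B') ⁻¹' {A : R k →L[ℝ] R k | IsUnit A}) :=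
    hopen.preimage hcont
  refine Filter.mem_of_superset (h2.mem_nhds ?_) ?_
  · change IsUnit (L.comp B')
    rw [hLB]
    exact isUnit_one
  · intro L' hL'
    obtain ⟨u, hu⟩ := (hL' : IsUnit (L'.comp B'))
    intro y
    refine ⟨B' ((↑u⁻¹ : R k →L[ℝ] R k) y), ?_⟩
    have h3 : (u : R k →L[ℝ] R k) ((↑u⁻¹ : R k →L[ℝ] R k) y) = y := by
      have h4 := u.mul_inv
      exact congrArg (fun g : R k →L[ℝ] R k => g y) h4
    rw [hu] at h3
    simpa using h3

theorem measurable_crit {N k : ℕ} {U O : Set (R N)} {f : R N → R k} (hU : IsOpen U)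
    (hf : ContDiffOn ℝ ∞ f U) (hO : IsOpen O) (hOU : O ⊆ U) :
    MeasurableSet (f '' (crit f U ∩ O)) := by
  have hd : ContinuousOn (fderiv ℝ f) U :=
    hf.continuousOn_fderiv_of_isOpen hU (by simp)
  have hG : IsOpen (O ∩ (fderiv ℝ f) ⁻¹' {L : R N →L[ℝ] R k | Function.Surjective L}) :=
    (hd.mono hOU).isOpen_inter_preimage hO (Sgc_isOpen_surj N k)
  have hS : crit f U ∩ O =
      O ∩ (O ∩ (fderiv ℝ f) ⁻¹' {L : R N →L[ℝ] R k | Function.Surjective L})ᶜ := by
    ext x
    simp only [crit, Set.mem_inter_iff, Set.mem_ofPred_eq, Set.mem_compl_iff, Set.mem_preimage,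
      not_and]
    constructor
    · rintro ⟨⟨_, h1⟩, h2⟩
      exact ⟨h2, fun _ => h1⟩
    · rintro ⟨h1, h2⟩
      exact ⟨⟨hOU h1, h2 h1⟩, h1⟩
  have hσ : IsSigmaCompact O := by
    have : LocallyCompactSpace O := hO.locallyCompactSpace
    exact isSigmaCompact_iff_sigmaCompactSpace.2 inferInstance
  obtain ⟨K, hK, hKO⟩ := hσ
  rw [hS]
  have h1 : O ∩ (O ∩ (fderiv ℝ f) ⁻¹' {L : R N →L[ℝ] R k | Function.Surjective L})ᶜ =
      ⋃ n, K n ∩ (O ∩ (fderiv ℝ f) ⁻¹' {L : R N →L[ℝ] R k | Function.Surjective L})ᶜ := by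
    conv_lhs => rw [← hKO]
    rw [← Set.iUnion_inter, hKO]
  rw [h1, Set.image_iUnion]
  refine MeasurableSet.iUnion fun n => ?_
  have h2 : IsCompact (K n ∩ (O ∩ (fderiv ℝ f) ⁻¹' {L : R N →L[ℝ] R k |
      Function.Surjective L})ᶜ) := (hK n).inter_right hG.isClosed_compl
  have h3 : K n ⊆ U := fun x hx => hOU (hKO ▸ Set.mem_iUnion.2 ⟨n, hx⟩)
  exact (h2.image_of_continuousOn (hf.continuousOn.mono
    (fun x hx => h3 hx.1))).isClosed.measurableSet

end Pool.Agent.SRD
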