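import Pool.Agent.SRD.Str
import Pool.Agent.SRD.Lnd
import Pool.Agent.SRD.Sgc
import Pool.Agent.SRD.Fub

/-!
SRD module Fst (size 4): the critical points with nonzero derivative.
PROOF. Let `S = crit f U \ flat f U 1`. `null_of_locally` (module Lnd): let `x0 ∈ S`; `fderiv ℝ f x0 ≠ 0`
(`iteratedFDeriv ℝ 1 f x0 ≠ 0`, `norm_iteratedFDeriv_one`), so for some `r : Fin k` the function `w x = f x r` has `fderiv ℝ w x0 ≠ 0`
(`fderiv_apply`/`fderiv_pi`); so `k = k' + 1` (`Fin 0` is empty). Take `O, P, Φ, γ` from `straighten` (module Str) for `w`. `f '' (crit f U ∩ O)` is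
measurable (`measurable_crit`, module Sgc); it contains `f '' (S ∩ O)`. For `t : ℝ` let `P_t = {y | (t, y) ∈ P}` (open in `R N`),
`h_t y = fun j => f (γ (t, y)) (r.succAbove j)`, smooth on `P_t` with values in `R k'`, and `T t = h_t '' crit h_t P_t`, null by `SardDim N`.
`null_of_slices` (module Fub) for `r`: let `x ∈ crit f U ∩ O`, `Φ x = (t, y)` with `t = w x = f x r`, `x = γ (t, y)`, so
`(fun j => f x (r.succAbove j)) = h_t y`; it remains to see that `fderiv ℝ h_t y` is not surjective. If it were, then `fderiv ℝ f x` would be surjective: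
given `z : R (k' + 1)`, let `F = f ∘ γ` (derivative at `(t, y)`: `fderiv ℝ f x ∘ fderiv ℝ γ (t, y)`); `F p r = w (γ p) = p.1` on `P`, so
`(fderiv ℝ F (t, y) (a, v)) r = a`; put `a = z r`, `q = fderiv ℝ F (t, y) (a, 0)`, and choose `v` with `fderiv ℝ h_t y v = fun j => (z - q) (r.succAbove j)`;
`fderiv ℝ F (t, y) (0, v)` has the components `fderiv ℝ h_t y v j` at `r.succAbove j` (chain rule for `y ↦ (t, y)`) and `0` at `r`; so
`fderiv ℝ F (t, y) (a, v) = z` (`Fin.forall_iff_succAbove`).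
-/

open scoped ContDiff Topology
open MeasureTheory

namespace Pool.Agent.SRD

private lemma fst_surj {N k : ℕ} (r : Fin (k + 1)) {U : Set (R (N + 1))}
    {f : R (N + 1) → R (k + 1)} (hU : IsOpen U) (hf : ContDiffOn ℝ ∞ f U) {P : Set (ℝ × R N)}
    (hP : IsOpen P) {γ : ℝ × R N → R (N + 1)} (hγ : ContDiffOn ℝ ∞ γ P)
    (hγU : ∀ p ∈ P, γ p ∈ U) (hfst : ∀ p ∈ P, f (γ p) r = p.1) {p : ℝ × R N} (hp : p ∈ P)
    (hs : Function.Surjective
      (fderiv ℝ (fun (y : R N) (j : Fin k) => f (γ (p.1, y)) (r.succAbove j)) p.2)) :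
    Function.Surjective (fderiv ℝ f (γ p)) := by
  have hγd : HasFDerivAt γ (fderiv ℝ γ p) p :=
    (((hγ.contDiffAt (hP.mem_nhds hp)).differentiableAt (by simp))).hasFDerivAt
  have hfd : HasFDerivAt f (fderiv ℝ f (γ p)) (γ p) :=
    (((hf.contDiffAt (hU.mem_nhds (hγU p hp))).differentiableAt (by simp))).hasFDerivAt
  set L : ℝ × R N →L[ℝ] R (k + 1) := (fderiv ℝ f (γ p)).comp (fderiv ℝ γ p) with hL
  have hF : HasFDerivAt (fun q => f (γ q)) L p := hfd.comp p hγd
  have hFc : ∀ i, HasFDerivAt (fun q => f (γ q) i)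
      ((ContinuousLinearMap.proj (R := ℝ) (φ := fun _ : Fin (k + 1) => ℝ) i).comp L) p := by
    intro i
    exact (hasFDerivAt_pi'.1 hF) i
  have hr : (ContinuousLinearMap.proj (R := ℝ) (φ := fun _ : Fin (k + 1) => ℝ) r).comp L
      = ContinuousLinearMap.fst ℝ ℝ (R N) := by
    have h1 : HasFDerivAt (fun q => f (γ q) r) (ContinuousLinearMap.fst ℝ ℝ (R N)) p := by
      have h2 : HasFDerivAt (fun q : ℝ × R N => q.1) (ContinuousLinearMap.fst ℝ ℝ (R N)) p :=
        hasFDerivAt_fst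
      refine h2.congr_of_eventuallyEq ?_
      filter_upwards [hP.mem_nhds hp] with q hq
      exact hfst q hq
    exact (hFc r).unique h1
  have hin : HasFDerivAt (fun y : R N => ((p.1, y) : ℝ × R N))
      (ContinuousLinearMap.inr ℝ ℝ (R N)) p.2 := hasFDerivAt_prodMk_right p.1 p.2
  have hh : HasFDerivAt (fun (y : R N) (j : Fin k) => f (γ (p.1, y)) (r.succAbove j))
      (ContinuousLinearMap.pi fun j =>
        ((ContinuousLinearMap.proj (R := ℝ) (φ := fun _ : Fin (k + 1) => ℝ)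
          (r.succAbove j)).comp L).comp (ContinuousLinearMap.inr ℝ ℝ (R N))) p.2 := by
    refine hasFDerivAt_pi.2 ?_
    intro j
    have h3 : HasFDerivAt (fun q => f (γ q) (r.succAbove j))
      ((ContinuousLinearMap.proj (R := ℝ) (φ := fun _ : Fin (k + 1) => ℝ)
          (r.succAbove j)).comp L) (p.1, p.2) := hFc (r.succAbove j)
    exact h3.comp p.2 hin
  rw [hh.fderiv] at hs
  intro z
  obtain ⟨v, hv⟩ := hs (fun j => (z - L (z r, 0)) (r.succAbove j))
  refine ⟨fderiv ℝ γ p (z r, v), ?_⟩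
  have hLz : L (z r, v) = z := by
    have hadd : L (z r, v) = L (z r, 0) + L (0, v) := by
      rw [← map_add]; simp
    have hfr : L (z r, v) r = z r := by
      have := congrArg (fun M : ℝ × R N →L[ℝ] ℝ => M (z r, v)) hr
      simpa using this
    funext i
    rcases Fin.eq_self_or_eq_succAbove r i with h | ⟨j, h⟩
    · rw [h]; exact hfr
    · rw [h, hadd]
      have h4 := congrFun hv j
      simp only [ContinuousLinearMap.coe_pi', ContinuousLinearMap.coe_comp,
        Function.comp_apply, ContinuousLinearMap.inr_apply, ContinuousLinearMap.proj_apply,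
        Pi.sub_apply] at h4
      simp only [Pi.add_apply]
      linarith
  exact hLz

theorem null_first {N k : ℕ} (hS : SardDim N) {U : Set (R (N + 1))} {f : R (N + 1) → R k}
    (hU : IsOpen U) (hf : ContDiffOn ℝ ∞ f U) :
    volume (f '' (crit f U \ flat f U 1)) = 0 := by
  refine null_of_locally ?_
  rintro x0 ⟨⟨hx0, hxs⟩, hfl⟩
  have hfd : DifferentiableAt ℝ f x0 :=
    (hf.contDiffAt (hU.mem_nhds hx0)).differentiableAt (by simp)
  have hne : fderiv ℝ f x0 ≠ 0 := by
    intro h0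
    refine hfl ⟨hx0, ?_⟩
    intro j hj1 hj2
    have hj : j = 1 := le_antisymm hj2 hj1
    subst hj
    rw [← norm_eq_zero, norm_iteratedFDeriv_one, h0, norm_zero]
  obtain ⟨r, hr⟩ : ∃ r : Fin k, fderiv ℝ (fun x => f x r) x0 ≠ 0 := by
    by_contra hcon
    push Not at hcon
    apply hne
    ext v i
    have h1 : HasFDerivAt (fun x => f x i)
      ((ContinuousLinearMap.proj (R := ℝ) (φ := fun _ : Fin k => ℝ) i).comp (fderiv ℝ f x0)) x0 :=
      (hasFDerivAt_pi'.1 hfd.hasFDerivAt) i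
    have h2 := h1.fderiv
    rw [hcon i] at h2
    have h3 := congrArg (fun M : R (N + 1) →L[ℝ] ℝ => M v) h2
    simpa using h3.symm
  obtain ⟨k', rfl⟩ : ∃ k', k = k' + 1 := by
    cases k with
    | zero => exact Fin.elim0 r
    | succ n => exact ⟨n, rfl⟩
  have hw : ContDiffOn ℝ ∞ (fun x => f x r) U := contDiffOn_pi.1 hf r
  obtain ⟨O, P, Φ, γ, hO, hP, hxO, hOU, hΦ, hγ, hΦs, hγs⟩ := straighten hU hw hx0 hr
  refine ⟨O, hO.mem_nhds hxO, ?_⟩
  have hsub : f '' (crit f U \ flat f U 1 ∩ O) ⊆ f '' (crit f U ∩ O) := by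
    apply Set.image_mono
    rintro x ⟨⟨hx, -⟩, hx2⟩
    exact ⟨hx, hx2⟩
  refine measure_mono_null hsub ?_
  have hfst : ∀ p ∈ P, f (γ p) r = p.1 := by
    intro p hp
    have h1 := hΦ (γ p) (hγ p hp).1
    rw [(hγ p hp).2] at h1
    exact h1.2.2.symm
  have hγU : ∀ p ∈ P, γ p ∈ U := fun p hp => hOU (hγ p hp).1
  have hin : ∀ t : ℝ, ContDiff ℝ ∞ (fun y : R N => ((t, y) : ℝ × R N)) := fun t =>
    contDiff_const.prodMk contDiff_id
  have hfγ : ContDiffOn ℝ ∞ (fun q => f (γ q)) P :=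
    hf.comp hγs (fun p hp => hγU p hp)
  refine null_of_slices r (measurable_crit hU hf hO hOU)
    (T := fun t => (fun (y : R N) (j : Fin k') => f (γ (t, y)) (r.succAbove j)) ''
      crit (fun (y : R N) (j : Fin k') => f (γ (t, y)) (r.succAbove j)) {y | (t, y) ∈ P}) ?_ ?_
  · intro t
    refine hS k' _ _ (hP.preimage (hin t).continuous) ?_
    rw [contDiffOn_pi]
    intro j
    have h1 : ContDiffOn ℝ ∞ (fun y : R N => f (γ (t, y))) {y | (t, y) ∈ P} :=
      hfγ.comp (hin t).contDiffOn (fun y hy => hy)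
    exact contDiffOn_pi.1 h1 (r.succAbove j)
  · rintro z ⟨x, ⟨⟨hxU, hxc⟩, hxO'⟩, rfl⟩
    obtain ⟨h1, h2, h3⟩ := hΦ x hxO'
    have h4 : (f x r, (Φ x).2) = Φ x := by
      rw [← show (Φ x).1 = f x r from h3]
    refine ⟨(Φ x).2, ⟨?_, ?_⟩, ?_⟩
    · show (f x r, (Φ x).2) ∈ P
      rw [h4]; exact h1
    · intro hsurj
      apply hxc
      have h5 := fst_surj r hU hf hP hγs hγU hfst h1
        (by rw [show (Φ x).1 = f x r from h3]; exact hsurj)
      rw [h2] at h5
      exact h5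
    · funext j
      show f (γ (f x r, (Φ x).2)) (r.succAbove j) = f x (r.succAbove j)
      rw [h4, h2]

end Pool.Agent.SRD
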