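import Pool.Agent.SRD.Str
import Pool.Agent.SRD.Lnd

/-!
SRD module Stp (size 4): the step from `flat m` to `flat (m + 1)`.
PROOF. Let `S = flat f U m \ flat f U (m + 1)`, `1 ≤ m`, `1 ≤ k`. `null_of_locally` (module Lnd): let `x0 ∈ S`. Then
`iteratedFDeriv ℝ (m + 1) f x0 ≠ 0` and `iteratedFDeriv ℝ m f x0 = 0`. The map `g = iteratedFDeriv ℝ m f` is smooth on the open set `U` with
derivative `fderiv ℝ g x0 ≠ 0` (`norm_fderiv_iteratedFDeriv`), so there are vectors `v : Fin m → R (N + 1)`, `i : Fin k` such that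
`w x = iteratedFDeriv ℝ m f x v i` has `fderiv ℝ w x0 ≠ 0` (otherwise `fderiv ℝ g x0 u` would vanish on all `v`, `i`: compose `g` with the continuous linear maps
`ContinuousMultilinearMap.apply` and `ContinuousLinearMap.proj i`). `w` is smooth on `U` and vanishes on `flat f U m` (`m ≥ 1`). Take `O, P, Φ, γ` from
`straighten` (module Str) for `w`. Let `P0 = {y | (0, y) ∈ P}` (open in `R N`), `h y = f (γ (0, y))`, smooth on `P0`. If `x ∈ S ∩ O` then `w x = 0`, so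
`Φ x = (0, y)`, `y ∈ P0`, `x = γ (0, y)`, `f x = h y`, and `fderiv ℝ h y = 0` by the chain rule since `fderiv ℝ f x = 0`
(`iteratedFDeriv ℝ 1 f x = 0`, `norm_iteratedFDeriv_one`), which is not surjective onto `R k`, `k ≥ 1`. So `f '' (S ∩ O) ⊆ h '' crit h P0`, null by the hypothesis
`SardDim N`.
-/

open scoped ContDiff Topology
open MeasureTheory

namespace Pool.Agent.SRD

theorem null_step {N k m : ℕ} (hS : SardDim N) (hk : 1 ≤ k) (hm : 1 ≤ m) {U : Set (R (N + 1))}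
    {f : R (N + 1) → R k} (hU : IsOpen U) (hf : ContDiffOn ℝ ∞ f U) :
    volume (f '' (flat f U m \ flat f U (m + 1))) = 0 := by
  apply null_of_locally
  rintro x0 ⟨⟨hxU, hx⟩, hx2⟩
  have hne : iteratedFDeriv ℝ (m + 1) f x0 ≠ 0 := by
    intro h0
    apply hx2
    refine ⟨hxU, fun j h1 h2 => ?_⟩
    rcases Nat.lt_or_ge j (m + 1) with h | h
    · exact hx j h1 (by omega)
    · obtain rfl : j = m + 1 := by omega
      exact h0
  obtain ⟨v, hv⟩ : ∃ v : Fin (m + 1) → R (N + 1), iteratedFDeriv ℝ (m + 1) f x0 v ≠ 0 := by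
    by_contra hc
    push Not at hc
    exact hne (ContinuousMultilinearMap.ext hc)
  obtain ⟨i, hi⟩ : ∃ i : Fin k, iteratedFDeriv ℝ (m + 1) f x0 v i ≠ 0 := by
    by_contra hc
    push Not at hc
    exact hv (funext hc)
  set L : (ContinuousMultilinearMap ℝ (fun _ : Fin m => R (N + 1)) (R k)) →L[ℝ] ℝ :=
    (ContinuousLinearMap.proj i).comp
      (ContinuousMultilinearMap.apply ℝ (fun _ : Fin m => R (N + 1)) (R k) (Fin.tail v)) with hL
  have hLa : ∀ q, L q = q (Fin.tail v) i := fun q => rfl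
  have hg : ContDiffOn ℝ ∞ (iteratedFDeriv ℝ m f) U := fun x hxx =>
    ((hf.contDiffAt (hU.mem_nhds hxx)).iteratedFDeriv_right (m := ∞) (i := m)
      (by exact_mod_cast le_top)).contDiffWithinAt
  set w : R (N + 1) → ℝ := fun x => L (iteratedFDeriv ℝ m f x) with hw
  have hws : ContDiffOn ℝ ∞ w U := L.contDiff.comp_contDiffOn hg
  have hwd : fderiv ℝ w x0 ≠ 0 := by
    have hgd : DifferentiableAt ℝ (iteratedFDeriv ℝ m f) x0 :=
      (hg.contDiffAt (hU.mem_nhds hxU)).differentiableAt (by simp)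
    have h1 : HasFDerivAt w (L.comp (fderiv ℝ (iteratedFDeriv ℝ m f) x0)) x0 :=
      L.hasFDerivAt.comp x0 hgd.hasFDerivAt
    rw [h1.fderiv]
    intro h0
    have h2 := congrArg (fun T => T (v 0)) h0
    apply hi
    rw [iteratedFDeriv_succ_apply_left]
    exact h2
  obtain ⟨O, P, Φ, γ, hO, hP, hx0O, hOU, h1, h2, h3, h4⟩ := straighten hU hws hxU hwd
  refine ⟨O, hO.mem_nhds hx0O, ?_⟩
  set P0 : Set (R N) := (fun y : R N => ((0 : ℝ), y)) ⁻¹' P with hP0
  have hcd : ContDiff ℝ ∞ (fun y : R N => ((0 : ℝ), y)) := contDiff_const.prodMk contDiff_id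
  have hP0o : IsOpen P0 := hP.preimage hcd.continuous
  have hγ0 : ContDiffOn ℝ ∞ (fun y : R N => γ (0, y)) P0 :=
    h4.comp hcd.contDiffOn (fun y hy => hy)
  have hh : ContDiffOn ℝ ∞ (fun y : R N => f (γ (0, y))) P0 :=
    hf.comp hγ0 (fun y hy => hOU (h2 _ hy).1)
  refine measure_mono_null ?_ (hS k P0 (fun y => f (γ (0, y))) hP0o hh)
  rintro _ ⟨x, ⟨⟨⟨hxU', hxf⟩, -⟩, hxO⟩, rfl⟩
  obtain ⟨ha, hb, hc⟩ := h1 x hxO
  have hw0 : w x = 0 := by
    rw [hw]
    simp only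
    rw [hxf m hm le_rfl, map_zero]
  have hΦ : Φ x = (0, (Φ x).2) := Prod.ext (by rw [hc, hw0]) rfl
  have hyP : (Φ x).2 ∈ P0 := by
    show ((0 : ℝ), (Φ x).2) ∈ P
    rw [← hΦ]; exact ha
  have hγx : γ (0, (Φ x).2) = x := by rw [← hΦ]; exact hb
  refine ⟨(Φ x).2, ⟨hyP, ?_⟩, by simp only; rw [hγx]⟩
  have hf0 : fderiv ℝ f x = 0 := by
    have h5 : ‖iteratedFDeriv ℝ 1 f x‖ = ‖fderiv ℝ f x‖ := norm_iteratedFDeriv_one f
    rw [hxf 1 le_rfl hm, norm_zero] at h5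
    exact norm_eq_zero.1 h5.symm
  have hfd : HasFDerivAt f (0 : R (N + 1) →L[ℝ] R k) (γ (0, (Φ x).2)) := by
    rw [hγx, ← hf0]
    exact ((hf.contDiffAt (hU.mem_nhds hxU')).differentiableAt (by simp)).hasFDerivAt
  have hγd : HasFDerivAt (fun y : R N => γ (0, y)) (fderiv ℝ (fun y : R N => γ (0, y)) (Φ x).2)
      (Φ x).2 :=
    ((hγ0.contDiffAt (hP0o.mem_nhds hyP)).differentiableAt (by simp)).hasFDerivAt
  have hhd : HasFDerivAt (fun y : R N => f (γ (0, y)))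
      ((0 : R (N + 1) →L[ℝ] R k).comp (fderiv ℝ (fun y : R N => γ (0, y)) (Φ x).2)) (Φ x).2 :=
    HasFDerivAt.comp (Φ x).2 hfd hγd
  rw [hhd.fderiv]
  intro hsurj
  obtain ⟨u, hu⟩ := hsurj (fun _ => 1)
  have h6 := congrFun hu ⟨0, hk⟩
  simp at h6

end Pool.Agent.SRD
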