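import Pool.Agent.SRD.Hol
import Pool.Agent.SRD.Stp
import Pool.Agent.SRD.Fst

/-!
SRD module Srd (size 3): Sard's theorem.
PROOF. `sard_dim`: induction on `N`. If `k = 0` every linear map to `R 0` is surjective (`Subsingleton`), so `crit f U = ∅`. Let `k ≥ 1`.
`N = 0`: `crit f U` has at most one point (`R 0` is a subsingleton), so the image is a subsingleton, null (`Set.Subsingleton.measure_zero`,
the volume of `R k`, `k ≥ 1`, has no atoms; `Set.Countable.measure_zero`; for `NoAtoms` of the volume on `Fin k → ℝ` with `k ≥ 1` use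
`Nonempty (Fin k)`). `N + 1`: `crit f U ⊆ (crit f U \ flat f U 1) ∪ ⋃ m ∈ [1, M), (flat f U m \ flat f U (m + 1)) ∪ flat f U M` with `M = N + 1`
(`flat` is decreasing in `m`), and `(M + 1) * k > N + 1`: `null_first`, `null_step`, `null_flat` and `measure_union_null`, `measure_iUnion_null`.
`sard`: choose a continuous linear equivalence `e : V ≃L[ℝ] R N`, `N = finrank ℝ V` (`ContinuousLinearEquiv.ofFinrankEq`), and apply
`sard_dim N` to `f ∘ e.symm` on `e '' U = e.symm ⁻¹' U`; `crit (f ∘ e.symm) (e '' U) = e '' crit f U` (chain rule: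
`ContinuousLinearEquiv.comp_right_fderiv`; `e.symm` is surjective).
-/

open scoped ContDiff Topology
open MeasureTheory

namespace Pool.Agent.SRD

private theorem Srd_zero {V : Type*} [NormedAddCommGroup V] [NormedSpace ℝ V] (U : Set V)
    (f : V → R 0) : volume (f '' crit f U) = 0 := by
  have h : crit f U = ∅ := by
    ext x
    simp only [crit, Set.mem_ofPred_eq, Set.mem_empty_iff_false, iff_false, not_and, not_not]
    intro _ y
    exact ⟨0, Subsingleton.elim _ _⟩
  rw [h, Set.image_empty, measure_empty]

private theorem Srd_cover {V W : Type*} [NormedAddCommGroup V] [NormedSpace ℝ V]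
    [NormedAddCommGroup W] [NormedSpace ℝ W] (f : V → W) (U : Set V) (N : ℕ) :
    crit f U ⊆ (crit f U \ flat f U 1) ∪
      ((⋃ m ∈ Finset.Icc 1 N, (flat f U m \ flat f U (m + 1))) ∪ flat f U (N + 1)) := by
  classical
  intro x hx
  by_cases h1 : x ∈ flat f U 1
  · right
    by_cases h2 : x ∈ flat f U (N + 1)
    · right
      exact h2
    · left
      have hex : ∃ m, x ∉ flat f U m := ⟨N + 1, h2⟩
      have hm := Nat.find_spec hex
      have hle : Nat.find hex ≤ N + 1 := Nat.find_min' hex h2
      have h0 : Nat.find hex ≠ 0 := by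
        intro h
        rw [h] at hm
        exact hm ⟨h1.1, fun j hj1 hj2 => by omega⟩
      have h1' : Nat.find hex ≠ 1 := by
        intro h
        rw [h] at hm
        exact hm h1
      obtain ⟨m, hmm⟩ : ∃ m, Nat.find hex = m + 1 := ⟨Nat.find hex - 1, by omega⟩
      have h3 : x ∈ flat f U m := by
        by_contra h
        have := Nat.find_min' hex h
        omega
      rw [hmm] at hm
      simp only [Set.mem_iUnion]
      exact ⟨m, Finset.mem_Icc.2 ⟨by omega, by omega⟩, h3, hm⟩
  · left
    exact ⟨hx, h1⟩

theorem sard_dim (N : ℕ) : SardDim N := by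
  induction N with
  | zero =>
    intro k U f hU hf
    rcases Nat.eq_zero_or_pos k with hk | hk
    · subst hk
      exact Srd_zero U f
    · have : Nonempty (Fin k) := ⟨⟨0, hk⟩⟩
      have hs : (f '' crit f U).Subsingleton := (Set.subsingleton_of_subsingleton).image f
      exact hs.measure_zero volume
  | succ N ih =>
    intro k U f hU hf
    rcases Nat.eq_zero_or_pos k with hk | hk
    · subst hk
      exact Srd_zero U f
    · refine measure_mono_null (Set.image_mono (Srd_cover f U N)) ?_
      rw [Set.image_union, Set.image_union]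
      refine measure_union_null (null_first ih hU hf) (measure_union_null ?_ ?_)
      · rw [Set.image_iUnion₂]
        refine (measure_biUnion_null_iff (Finset.countable_toSet _)).2 fun m hm => ?_
        have hm' := Finset.mem_Icc.1 hm
        exact null_step ih hk hm'.1 hU hf
      · refine null_flat ?_ hU hf
        calc N + 1 < (N + 1 + 1) * 1 := by omega
          _ ≤ (N + 1 + 1) * k := Nat.mul_le_mul_left _ hk

/-- **Sard's theorem** -/
theorem sard {V : Type*} [NormedAddCommGroup V] [NormedSpace ℝ V] [FiniteDimensional ℝ V] {k : ℕ}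
    {U : Set V} {f : V → R k} (hU : IsOpen U) (hf : ContDiffOn ℝ ∞ f U) :
    volume (f '' crit f U) = 0 := by
  have hfr : Module.finrank ℝ V = Module.finrank ℝ (R (Module.finrank ℝ V)) := by
    rw [Module.finrank_fin_fun]
  let e : V ≃L[ℝ] R (Module.finrank ℝ V) := ContinuousLinearEquiv.ofFinrankEq hfr
  have h := sard_dim (Module.finrank ℝ V) k (e.symm ⁻¹' U) (f ∘ e.symm)
    (hU.preimage e.symm.continuous)
    (hf.comp e.symm.contDiff.contDiffOn (Set.mapsTo_preimage _ _))
  refine measure_mono_null ?_ h
  rintro _ ⟨x, hx, rfl⟩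
  refine ⟨e x, ⟨?_, ?_⟩, ?_⟩
  · change e.symm (e x) ∈ U
    rw [e.symm_apply_apply]
    exact hx.1
  · intro hs
    apply hx.2
    have h1 : fderiv ℝ (f ∘ e.symm) (e x) = (fderiv ℝ f (e.symm (e x))).comp
        (e.symm : R (Module.finrank ℝ V) →L[ℝ] V) := e.symm.comp_right_fderiv
    rw [h1, e.symm_apply_apply] at hs
    intro z
    obtain ⟨y, hy⟩ := hs z
    exact ⟨e.symm y, hy⟩
  · change f (e.symm (e x)) = f x
    rw [e.symm_apply_apply]

end Pool.Agent.SRD
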