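import Mathlib

/-!
SRD: Sard's theorem for smooth maps. Definitions.
-/

open scoped ContDiff Topology
open MeasureTheory

namespace Pool.Agent.SRD

/-- The space `ℝ^N`. -/
abbrev R (N : ℕ) : Type := Fin N → ℝ

/-- The points of `U` where the derivative of `f` is not surjective. -/
def crit {V W : Type*} [NormedAddCommGroup V] [NormedSpace ℝ V] [NormedAddCommGroup W]
    [NormedSpace ℝ W] (f : V → W) (U : Set V) : Set V :=
  {x | x ∈ U ∧ ¬ Function.Surjective (fderiv ℝ f x)}

/-- The points of `U` where all derivatives of `f` of the orders `1, …, m` vanish. -/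
def flat {V W : Type*} [NormedAddCommGroup V] [NormedSpace ℝ V] [NormedAddCommGroup W]
    [NormedSpace ℝ W] (f : V → W) (U : Set V) (m : ℕ) : Set V :=
  {x | x ∈ U ∧ ∀ j, 1 ≤ j → j ≤ m → iteratedFDeriv ℝ j f x = 0}

/-- Sard's theorem in dimension `N` (all smooth maps from open subsets of `ℝ^N` to `ℝ^k`,
all `k`). -/
def SardDim (N : ℕ) : Prop :=
  ∀ (k : ℕ) (U : Set (R N)) (f : R N → R k), IsOpen U → ContDiffOn ℝ ∞ f U →
    volume (f '' crit f U) = 0

end Pool.Agent.SRD
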