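import Pool.Agent.SRD.Defs

/-!
SRD module Tay (size 3): Taylor estimate at a flat point.
PROOF. Induction on `m`, for all `W`. Let `D = fderiv ℝ f`. `m = 0`: mean value inequality on the convex set `B`
(`Convex.norm_image_sub_le_of_norm_fderiv_le`, `‖iteratedFDeriv ℝ 1 f z‖ = ‖fderiv ℝ f z‖`:
`norm_iteratedFDeriv_one`). `m + 1`: `fderiv ℝ f` satisfies the hypotheses with `m`
(`norm_iteratedFDeriv_fderiv`: `‖iteratedFDeriv ℝ j (fderiv ℝ f) z‖ = ‖iteratedFDeriv ℝ (j + 1) f z‖`; smooth on the open set `B`: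
`ContDiffOn.fderiv_of_isOpen`), so `‖fderiv ℝ f z - fderiv ℝ f x‖ ≤ M * ‖z - x‖ ^ (m + 1)` with `fderiv ℝ f x = 0`. On the
convex set `B ∩ closedBall x ‖y - x‖`, which contains `x` and `y`, `‖fderiv ℝ f z‖ ≤ M * ‖y - x‖ ^ (m + 1)`; mean value inequality
(`Convex.norm_image_sub_le_of_norm_hasFDerivWithin_le`): `‖f y - f x‖ ≤ M * ‖y - x‖ ^ (m + 1) * ‖y - x‖`.
-/

open scoped ContDiff Topology
open MeasureTheory

namespace Pool.Agent.SRD

theorem taylor_flat {V W : Type*} [NormedAddCommGroup V] [NormedSpace ℝ V]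
    [NormedAddCommGroup W] [NormedSpace ℝ W] (m : ℕ) {f : V → W} {B : Set V} (hB : IsOpen B)
    (hc : Convex ℝ B) (hf : ContDiffOn ℝ ∞ f B) {M : ℝ}
    (hM : ∀ z ∈ B, ‖iteratedFDeriv ℝ (m + 1) f z‖ ≤ M) {x : V} (hx : x ∈ B)
    (h0 : ∀ j, 1 ≤ j → j ≤ m → iteratedFDeriv ℝ j f x = 0) {y : V} (hy : y ∈ B) :
    ‖f y - f x‖ ≤ M * ‖y - x‖ ^ (m + 1) := by
  have hM0 : 0 ≤ M := (norm_nonneg _).trans (hM x hx)
  have hd : ∀ (j : ℕ), ∀ z ∈ B, DifferentiableAt ℝ (iteratedFDeriv ℝ j f) z := by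
    intro j z hz
    exact (hf.contDiffAt (hB.mem_nhds hz)).differentiableAt_iteratedFDeriv
      (by exact_mod_cast WithTop.coe_lt_coe.2 (ENat.natCast_lt_top j))
  have key : ∀ i, i ≤ m → ∀ z ∈ B,
      ‖iteratedFDeriv ℝ (m - i) f z - iteratedFDeriv ℝ (m - i) f x‖ ≤ M * ‖z - x‖ ^ (i + 1) := by
    intro i
    induction i with
    | zero =>
      intro _ z hz
      rw [Nat.sub_zero, zero_add, pow_one]
      refine hc.norm_image_sub_le_of_norm_fderiv_le (fun w hw => hd m w hw) ?_ hx hz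
      intro w hw
      rw [norm_fderiv_iteratedFDeriv]
      exact hM w hw
    | succ i ih =>
      intro hi z hz
      have hi' : i ≤ m := by omega
      have hS : Convex ℝ (B ∩ Metric.closedBall x ‖z - x‖) :=
        hc.inter (convex_closedBall x _)
      have hxS : x ∈ B ∩ Metric.closedBall x ‖z - x‖ :=
        ⟨hx, Metric.mem_closedBall_self (norm_nonneg _)⟩
      have hzS : z ∈ B ∩ Metric.closedBall x ‖z - x‖ :=
        ⟨hz, by rw [Metric.mem_closedBall, dist_eq_norm]⟩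
      have h1 : ‖iteratedFDeriv ℝ (m - (i + 1)) f z - iteratedFDeriv ℝ (m - (i + 1)) f x‖
          ≤ (M * ‖z - x‖ ^ (i + 1)) * ‖z - x‖ := by
        refine hS.norm_image_sub_le_of_norm_fderiv_le (fun w hw => hd _ w hw.1) ?_ hxS hzS
        intro w hw
        rw [norm_fderiv_iteratedFDeriv]
        have h2 : m - (i + 1) + 1 = m - i := by omega
        rw [h2]
        have h3 := ih hi' w hw.1
        rw [h0 (m - i) (by omega) (by omega), sub_zero] at h3
        have h4 : ‖w - x‖ ≤ ‖z - x‖ := by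
          have := hw.2
          rw [Metric.mem_closedBall, dist_eq_norm] at this
          exact this
        exact h3.trans (mul_le_mul_of_nonneg_left (pow_le_pow_left₀ (norm_nonneg _) h4 _) hM0)
      calc ‖iteratedFDeriv ℝ (m - (i + 1)) f z - iteratedFDeriv ℝ (m - (i + 1)) f x‖
          ≤ (M * ‖z - x‖ ^ (i + 1)) * ‖z - x‖ := h1
        _ = M * ‖z - x‖ ^ (i + 1 + 1) := by ring
  have h5 := key m le_rfl y hy
  rw [Nat.sub_self] at h5
  have h6 : iteratedFDeriv ℝ 0 f y - iteratedFDeriv ℝ 0 f x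
      = (continuousMultilinearCurryFin0 ℝ V W).symm (f y - f x) := by
    rw [map_sub]
    rfl
  rw [h6, LinearIsometryEquiv.norm_map] at h5
  exact h5

end Pool.Agent.SRD
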