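import Pool.Agent.SRD.Lnd
import Pool.Agent.SRD.Tay

/-!
SRD module Hol (size 3): the image of the very flat points is null.
PROOF. `null_of_locally` (module Lnd). Near `x ∈ flat f U m` choose a ball `B ⊆ U` around `x` on which
`‖iteratedFDeriv ℝ (m + 1) f z‖ ≤ M`, `0 ≤ M` (continuity of `iteratedFDeriv` on the open set `U`:
`ContDiffOn.continuousOn_iteratedFDerivWithin` with `iteratedFDerivWithin_of_isOpen`, or at the point `x`:
`ContDiffAt.iteratedFDeriv_right`, `ContinuousAt`, `Metric.eventually_nhds_iff_ball`). By `taylor_flat` (module Tay) `f` is Hölder of exponent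
`m + 1` on `S = flat f U m ∩ B`: `HolderOnWith ⟨M, _⟩ (m + 1) f S` (`HolderOnWith` is stated with `edist`;
`edist_dist`, `ENNReal.ofReal_mul`, `ENNReal.ofReal_rpow_of_nonneg`, exponent `((m + 1 : ℕ) : ℝ≥0)`). `HolderOnWith.hausdorffMeasure_image_le` (exponent `r = m + 1 > 0`, `d = k`) gives
`μH[k] (f '' S) ≤ M^k * μH[(m + 1) * k] S`, and `μH[(m+1) k] S = 0` because `(m + 1) * k > N`:
`μH[N]` on `R N` is the volume (`MeasureTheory.hausdorffMeasure_pi_real`), finite on the bounded set `S`, so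
`hausdorffMeasure_zero_or_top` (`MeasureTheory.Measure.hausdorffMeasure_zero_or_top`) gives `0` for the larger dimension (or use `dimH`:
`Real.dimH_of_mem_nhds`, `Real.dimH_univ_pi_fin`, `hausdorffMeasure_of_dimH_lt`: `dimH univ = N < (m+1) k`). Finally `μH[k] = volume` on `R k`
(`hausdorffMeasure_pi_real`).
-/

open scoped ContDiff Topology
open MeasureTheory

namespace Pool.Agent.SRD

theorem null_flat {N k m : ℕ} (hm : N < (m + 1) * k) {U : Set (R N)} {f : R N → R k}
    (hU : IsOpen U) (hf : ContDiffOn ℝ ∞ f U) : volume (f '' flat f U m) = 0 := by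
  refine null_of_locally fun x hx => ?_
  have hxU : x ∈ U := hx.1
  have hfx : ContDiffAt ℝ ∞ f x := hf.contDiffAt (hU.mem_nhds hxU)
  have hcont : ContinuousAt (iteratedFDeriv ℝ (m + 1) f) x := by
    have h1 : ContDiffAt ℝ 0 (iteratedFDeriv ℝ (m + 1) f) x :=
      hfx.iteratedFDeriv_right (by exact_mod_cast le_top)
    exact h1.continuousAt
  obtain ⟨M, hM⟩ : ∃ M : ℝ, M = ‖iteratedFDeriv ℝ (m + 1) f x‖ + 1 := ⟨_, rfl⟩
  have hM0 : 0 ≤ M := by rw [hM]; positivity
  have hev : ∀ᶠ z in 𝓝 x, ‖iteratedFDeriv ℝ (m + 1) f z‖ < M := by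
    have h2 := hcont.norm
    exact h2.eventually_lt continuousAt_const (by rw [hM]; linarith)
  obtain ⟨ε, hε, hball⟩ := Metric.eventually_nhds_iff_ball.1 (hev.and (hU.mem_nhds hxU))
  refine ⟨Metric.ball x ε, Metric.ball_mem_nhds x hε, ?_⟩
  have hBU : Metric.ball x ε ⊆ U := fun z hz => (hball z hz).2
  obtain ⟨S, hS⟩ : ∃ S, S = flat f U m ∩ Metric.ball x ε := ⟨_, rfl⟩
  rw [← hS]
  have hhol : HolderOnWith (Real.toNNReal M) ((m + 1 : ℕ) : NNReal) f S := by
    intro y hy z hz
    rw [hS] at hy hz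
    have h := taylor_flat m Metric.isOpen_ball (convex_ball x ε) (hf.mono hBU) (M := M)
      (fun z hz => (hball z hz).1.le) hy.2 hy.1.2 hz.2
    rw [edist_dist, edist_dist, dist_comm (f y), dist_comm y, dist_eq_norm, dist_eq_norm]
    have e1 : ((Real.toNNReal M : NNReal) : ENNReal) = ENNReal.ofReal M := rfl
    rw [e1, ENNReal.ofReal_rpow_of_nonneg (norm_nonneg _) (by positivity), ← ENNReal.ofReal_mul hM0]
    refine ENNReal.ofReal_le_ofReal ?_
    have e2 : ‖z - y‖ ^ ((((m + 1 : ℕ) : NNReal)) : ℝ) = ‖z - y‖ ^ (m + 1) := by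
      rw [NNReal.coe_natCast, Real.rpow_natCast]
    rw [e2]
    exact h
  have hk : 0 < k := by
    rcases Nat.eq_zero_or_pos k with h | h
    · rw [h] at hm
      omega
    · exact h
  have h3 := hhol.hausdorffMeasure_image_le (by positivity) (d := (k : ℝ)) (by positivity)
  have h4 : Measure.hausdorffMeasure ((((m + 1 : ℕ) : NNReal) : ℝ) * (k : ℝ)) S = 0 := by
    have h5 : dimH S < (((m + 1) * k : ℕ) : NNReal) := by
      refine lt_of_le_of_lt (dimH_mono (Set.subset_univ S)) ?_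
      rw [Real.dimH_univ_pi_fin]
      exact_mod_cast hm
    have h6 := hausdorffMeasure_of_dimH_lt h5
    have e3 : ((((m + 1) * k : ℕ) : NNReal) : ℝ) = ((((m + 1 : ℕ) : NNReal) : ℝ) * (k : ℝ)) := by
      push_cast
      ring
    rwa [e3] at h6
  rw [h4, mul_zero] at h3
  have e4 : (Measure.hausdorffMeasure (k : ℝ) : Measure (R k)) = volume := by
    have := hausdorffMeasure_pi_real (ι := Fin k)
    rwa [Fintype.card_fin] at this
  rw [e4] at h3
  exact le_antisymm h3 bot_le

end Pool.Agent.SRD
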