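import Pool.Agent.SRD.Defs

/-!
SRD module Str (size 3): straightening of a function with nonzero derivative.
PROOF. `fderiv ℝ w x0 ≠ 0`, so for some index `a` the partial derivative `c = fderiv ℝ w x0 (Pi.single a 1) ≠ 0` (`LinearMap.pi_ext'` or write a
vector as the sum of its coordinates). Let `Φ x = (w x, fun j => x (a.succAbove j))`, smooth on `U`. Its derivative at `x0` is
`v ↦ (fderiv ℝ w x0 v, fun j => v (a.succAbove j))`, injective (if the second component is zero, `v = v a • Pi.single a 1`, so the first is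
`v a * c`), so bijective by the dimension (`LinearEquiv.ofInjectiveEndo` does not apply, use
`LinearMap.linearEquivOfInjective` with `finrank` equality `N + 1 = 1 + N`), a continuous linear equivalence. `ContDiffAt.toOpenPartialHomeomorph`
and `ContDiffAt.to_localInverse` (see the proof of `slice` in Pool/Agent/NDC/Slc.lean): the local inverse `γ` is smooth at `Φ x0`,
so smooth on a neighbourhood (`ContDiffAt.eventually` needs a finite order: to get `∞` on a neighbourhood use that at every point of the target near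
`Φ x0` the derivative of `Φ` is still invertible and `OpenPartialHomeomorph.contDiffAt_symm`; the set of
invertible derivatives is open: `ContinuousLinearEquiv.nhds`). Restrict to an open
`O ⊆ U` with `x0 ∈ O`: `P = Φ '' O` is open.
-/

open scoped ContDiff Topology
open MeasureTheory

namespace Pool.Agent.SRD

private theorem Str_index {N : ℕ} (A : R (N + 1) →L[ℝ] ℝ) (hA : A ≠ 0) :
    ∃ a, A (Pi.single a 1) ≠ 0 := by
  by_contra h
  push Not at h
  apply hA
  ext v
  have h1 : v = ∑ i, v i • (Pi.single i (1 : ℝ) : R (N + 1)) := by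
    ext j
    simp [Finset.sum_apply, Pi.single_apply]
  rw [h1, map_sum]
  simp only [map_smul, h, smul_zero, Finset.sum_const_zero]
  rfl

private theorem Str_inj {N : ℕ} (A : R (N + 1) →L[ℝ] ℝ) {a : Fin (N + 1)}
    (ha : A (Pi.single a 1) ≠ 0) :
    Function.Injective (A.prod (ContinuousLinearMap.pi
      (fun j : Fin N => (ContinuousLinearMap.proj (a.succAbove j) : R (N + 1) →L[ℝ] ℝ)))) := by
  rw [injective_iff_map_eq_zero]
  intro v hv
  have h1 : A v = 0 := congrArg Prod.fst hv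
  have h2 : ∀ j : Fin N, v (a.succAbove j) = 0 := fun j => congrFun (congrArg Prod.snd hv) j
  have h3 : v = v a • (Pi.single a (1 : ℝ) : R (N + 1)) := by
    ext j
    rcases eq_or_ne j a with rfl | hj
    · simp
    · obtain ⟨k, rfl⟩ := Fin.exists_succAbove_eq hj
      rw [h2 k]
      simp
  rw [h3, map_smul, smul_eq_mul] at h1
  have h4 : v a = 0 := (mul_eq_zero.1 h1).resolve_right ha
  rw [h3, h4, zero_smul]

theorem straighten {N : ℕ} {U : Set (R (N + 1))} (hU : IsOpen U) {w : R (N + 1) → ℝ}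
    (hw : ContDiffOn ℝ ∞ w U) {x0 : R (N + 1)} (hx : x0 ∈ U) (hd : fderiv ℝ w x0 ≠ 0) :
    ∃ (O : Set (R (N + 1))) (P : Set (ℝ × R N)) (Φ : R (N + 1) → ℝ × R N)
      (γ : ℝ × R N → R (N + 1)), IsOpen O ∧ IsOpen P ∧ x0 ∈ O ∧ O ⊆ U ∧
      (∀ x ∈ O, Φ x ∈ P ∧ γ (Φ x) = x ∧ (Φ x).1 = w x) ∧
      (∀ p ∈ P, γ p ∈ O ∧ Φ (γ p) = p) ∧ ContDiffOn ℝ ∞ Φ O ∧ ContDiffOn ℝ ∞ γ P := by
  obtain ⟨a, ha⟩ := Str_index _ hd
  let B : R (N + 1) →L[ℝ] R N := ContinuousLinearMap.pi
      (fun j : Fin N => (ContinuousLinearMap.proj (a.succAbove j) : R (N + 1) →L[ℝ] ℝ))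
  have hinj : Function.Injective ((fderiv ℝ w x0).prod B) := Str_inj _ ha
  have hdim : Module.finrank ℝ (R (N + 1)) = Module.finrank ℝ (ℝ × R N) := by
    rw [Module.finrank_prod]
    simp [add_comm]
  let e : R (N + 1) ≃L[ℝ] ℝ × R N :=
    (LinearMap.linearEquivOfInjective ((fderiv ℝ w x0).prod B).toLinearMap hinj
      hdim).toContinuousLinearEquiv
  have he : (e : R (N + 1) →L[ℝ] ℝ × R N) = (fderiv ℝ w x0).prod B := by
    ext x <;> rfl
  let Φ : R (N + 1) → ℝ × R N := fun y => (w y, B y)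
  have hΦU : ContDiffOn ℝ ∞ Φ U := hw.prodMk B.contDiff.contDiffOn
  have hΦ : ContDiffAt ℝ ∞ Φ x0 := hΦU.contDiffAt (hU.mem_nhds hx)
  have hwd : HasFDerivAt w (fderiv ℝ w x0) x0 :=
    ((hw.contDiffAt (hU.mem_nhds hx)).differentiableAt (by simp)).hasFDerivAt
  have hde : HasFDerivAt Φ (e : R (N + 1) →L[ℝ] ℝ × R N) x0 := by
    rw [he]
    exact hwd.prodMk B.hasFDerivAt
  let P0 := hΦ.toOpenPartialHomeomorph Φ hde (by simp)
  have hx0s : x0 ∈ P0.source := hΦ.mem_toOpenPartialHomeomorph_source hde (by simp)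
  have hP0 : ∀ x, P0 x = Φ x := fun x => rfl
  let I : Set (R (N + 1) →L[ℝ] ℝ × R N) :=
    Set.range (fun f : R (N + 1) ≃L[ℝ] ℝ × R N => (f : R (N + 1) →L[ℝ] ℝ × R N))
  have hI : IsOpen I := ContinuousLinearEquiv.isOpen
  have hO1 : IsOpen (U ∩ (fderiv ℝ Φ) ⁻¹' I) :=
    (hΦU.continuousOn_fderiv_of_isOpen hU (by simp)).isOpen_inter_preimage hU hI
  let P1 := P0.restrOpen _ hO1
  have hsrc : P1.source = P0.source ∩ (U ∩ (fderiv ℝ Φ) ⁻¹' I) := P0.restrOpen_source _ hO1
  have hP1 : ∀ x, P1 x = Φ x := fun x => rfl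
  refine ⟨P1.source, P1.target, Φ, P1.symm, P1.open_source, P1.open_target, ?_, ?_, ?_, ?_, ?_, ?_⟩
  · rw [hsrc]
    exact ⟨hx0s, hx, by rw [Set.mem_preimage, hde.fderiv]; exact ⟨e, rfl⟩⟩
  · rw [hsrc]
    exact fun x hx => hx.2.1
  · intro x hx
    exact ⟨P1.map_source hx, P1.left_inv hx, rfl⟩
  · intro p hp
    exact ⟨P1.map_target hp, P1.right_inv hp⟩
  · refine hΦU.mono ?_
    rw [hsrc]
    exact fun x hx => hx.2.1
  · intro p hp
    have h1 : P1.symm p ∈ P1.source := P1.map_target hp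
    rw [hsrc] at h1
    obtain ⟨-, h2, f, hf⟩ := h1
    have h3 : ContDiffAt ℝ ∞ Φ (P1.symm p) := hΦU.contDiffAt (hU.mem_nhds h2)
    have h4 : HasFDerivAt P1 (f : R (N + 1) →L[ℝ] ℝ × R N) (P1.symm p) := by
      have h5 := (h3.differentiableAt (by simp)).hasFDerivAt
      have h6 : (f : R (N + 1) →L[ℝ] ℝ × R N) = fderiv ℝ Φ (P1.symm p) := hf
      rw [h6]
      exact h5
    exact (P1.contDiffAt_symm hp h4 h3).contDiffWithinAt

end Pool.Agent.SRD
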